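-- proved by helper938 (project H418-EF)
import Pool.Agent.H418R3.EF.Stmts

set_option autoImplicit false

namespace Pool.Agent.H938R3.EFAb

open Pool.Agent.H418R3.EF

abbrev A0 : Type := ℚ × AddCircle (1 : ℚ)

theorem A0_div (n : ℤ) (hn : n ≠ 0) (a : A0) : ∃ b : A0, n • b = a := by
  obtain ⟨x, y⟩ := a
  obtain ⟨q, rfl⟩ := QuotientAddGroup.mk_surjective y
  have hn' : (n : ℚ) ≠ 0 := by exact_mod_cast hn
  refine ⟨(x / n, ((q / n : ℚ) : AddCircle (1 : ℚ))), ?_⟩
  refine Prod.ext ?_ ?_
  · show n • (x / n) = x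
    rw [zsmul_eq_mul]
    field_simp
  · show n • ((q / n : ℚ) : AddCircle (1 : ℚ)) = (q : AddCircle (1 : ℚ))
    rw [← AddCircle.coe_zsmul, zsmul_eq_mul]
    congr 1
    field_simp

theorem A0_ord (n : ℤ) : ∃ u : A0, ∀ m : ℤ, m • u = 0 ↔ n ∣ m := by
  by_cases hn : n = 0
  · refine ⟨(1, 0), fun m => ?_⟩
    subst hn
    simp [zero_dvd_iff, Prod.ext_iff]
  · have hn' : (n : ℚ) ≠ 0 := by exact_mod_cast hn
    refine ⟨(0, ((1 / n : ℚ) : AddCircle (1 : ℚ))), fun m => ?_⟩
    rw [Prod.ext_iff]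
    show (m • (0 : ℚ) = 0 ∧ m • ((1 / n : ℚ) : AddCircle (1 : ℚ)) = 0) ↔ n ∣ m
    rw [← AddCircle.coe_zsmul, AddCircle.coe_eq_zero_iff]
    simp only [smul_zero, true_and, zsmul_eq_mul]
    constructor
    · rintro ⟨t, ht⟩
      refine ⟨t, ?_⟩
      have : (m : ℚ) = n * t := by
        field_simp at ht
        linarith
      exact_mod_cast this
    · rintro ⟨t, rfl⟩
      refine ⟨t, ?_⟩
      push_cast
      field_simp

abbrev D : Type := ℕ →₀ A0

instance : Countable (AddCircle (1 : ℚ)) :=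
  (QuotientAddGroup.mk_surjective (s := AddSubgroup.zmultiples (1 : ℚ))).countable

instance : Countable (Multiplicative D) := inferInstanceAs (Countable D)

instance : MeasurableSpace D := ⊤

instance : DiscreteMeasurableSpace D := ⟨fun _ => trivial⟩

instance : MeasurableAdd₂ D := ⟨measurable_of_countable _⟩

theorem D_div (n : ℤ) (hn : n ≠ 0) (a : D) : ∃ b : D, n • b = a ∧ ∀ N, a N = 0 → b N = 0 := by
  classical
  choose f hf using A0_div n hn
  let f' : A0 → A0 := fun a => if a = 0 then 0 else f a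
  have h0 : f' 0 = 0 := if_pos rfl
  have h1 : ∀ a, n • f' a = a := by
    intro a
    by_cases h : a = 0
    · subst h; rw [h0, smul_zero]
    · show n • (if a = 0 then 0 else f a) = a
      rw [if_neg h, hf]
  refine ⟨a.mapRange f' h0, ?_, ?_⟩
  · ext1 N
    rw [Finsupp.smul_apply, Finsupp.mapRange_apply, h1]
  · intro N hN
    rw [Finsupp.mapRange_apply, hN, h0]

section

variable {G : Type} [CommGroup G] (g : ℕ → G)

def Pm (k : ℕ) (m : ℕ →₀ ℤ) : G := ∏ i ∈ Finset.range k, g i ^ m i

noncomputable def Sm (k : ℕ) (m : ℕ →₀ ℤ) (v : ℕ → D) : D := ∑ i ∈ Finset.range k, m i • v i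

theorem Pm_add (k : ℕ) (m m' : ℕ →₀ ℤ) : Pm g k (m + m') = Pm g k m * Pm g k m' := by
  unfold Pm
  rw [← Finset.prod_mul_distrib]
  exact Finset.prod_congr rfl fun i _ => by rw [Finsupp.add_apply, zpow_add]

theorem Pm_smul (k : ℕ) (t : ℤ) (m : ℕ →₀ ℤ) : Pm g k (t • m) = Pm g k m ^ t := by
  unfold Pm
  rw [← Finset.prod_zpow]
  exact Finset.prod_congr rfl fun i _ => by
    rw [Finsupp.smul_apply, smul_eq_mul, mul_comm, zpow_mul]

theorem Sm_add (k : ℕ) (m m' : ℕ →₀ ℤ) (v : ℕ → D) : Sm k (m + m') v = Sm k m v + Sm k m' v := by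
  unfold Sm
  rw [← Finset.sum_add_distrib]
  exact Finset.sum_congr rfl fun i _ => by rw [Finsupp.add_apply]; exact add_zsmul (v i) (m i) (m' i)

theorem Sm_smul (k : ℕ) (t : ℤ) (m : ℕ →₀ ℤ) (v : ℕ → D) : Sm k (t • m) v = t • Sm k m v := by
  unfold Sm
  rw [Finset.smul_sum]
  exact Finset.sum_congr rfl fun i _ => by
    rw [Finsupp.smul_apply, smul_eq_mul, mul_smul]

def Inv (k : ℕ) (S : G → Prop) (v : ℕ → D) : Prop :=
  ∀ m : ℕ →₀ ℤ, S (Pm g k m) ↔ Sm k m v = 0

def Cond (k : ℕ) (S : G → Prop) (v : ℕ → D) (d : D) : Prop :=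
  ∀ (m : ℕ →₀ ℤ) (n : ℤ), S (Pm g k m * g k ^ n) ↔ Sm k m v + n • d = 0

theorem ext_exists (H : Subgroup G) (k : ℕ) (v : ℕ → D) (hv : Inv g k (· ∈ H) v) :
    ∃ d : D, Cond g k (· ∈ H) v d := by
  classical
  -- the subgroup of exponents
  let K : AddSubgroup ℤ :=
    { carrier := {n | ∃ m : ℕ →₀ ℤ, Pm g k m * g k ^ n ∈ H}
      zero_mem' := ⟨0, by simp [Pm, H.one_mem]⟩
      add_mem' := by
        rintro a b ⟨m, hm⟩ ⟨m', hm'⟩
        refine ⟨m + m', ?_⟩
        have := H.mul_mem hm hm'
        rw [Pm_add, zpow_add]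
        convert this using 1
        exact mul_mul_mul_comm _ _ _ _
      neg_mem' := by
        rintro a ⟨m, hm⟩
        refine ⟨(-1 : ℤ) • m, ?_⟩
        have := H.inv_mem hm
        rw [Pm_smul, zpow_neg, zpow_neg, zpow_one, ← mul_inv]
        exact this }
  obtain ⟨n0, hn0⟩ := Int.subgroup_cyclic K
  have hK : ∀ n, n ∈ K ↔ n0 ∣ n := by
    intro n
    rw [hn0]
    exact AddSubgroup.mem_closure_singleton.trans
      ⟨fun ⟨t, ht⟩ => ⟨t, by rw [← ht, smul_eq_mul, mul_comm]⟩,
        fun ⟨t, ht⟩ => ⟨t, by rw [ht, smul_eq_mul, mul_comm]⟩⟩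
  obtain ⟨m0, hm0⟩ : ∃ m : ℕ →₀ ℤ, Pm g k m * g k ^ n0 ∈ H := (hK n0).2 dvd_rfl
  set c : D := Sm k m0 v with hc
  obtain ⟨N, hN⟩ : ∃ N : ℕ, ∀ i ∈ Finset.range k, v i N = 0 := by
    let T : Finset ℕ := (Finset.range k).biUnion fun i => (v i).support
    obtain ⟨N, hN⟩ := T.exists_notMem
    refine ⟨N, fun i hi => ?_⟩
    by_contra h
    exact hN (Finset.mem_biUnion.2 ⟨i, hi, Finsupp.mem_support_iff.2 h⟩)
  have hSN : ∀ m : ℕ →₀ ℤ, Sm k m v N = 0 := by
    intro m
    unfold Sm
    rw [Finsupp.finsetSum_apply]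
    exact Finset.sum_eq_zero fun i hi => by rw [Finsupp.smul_apply, hN i hi, smul_zero]
  obtain ⟨d0, hd0, hd0N⟩ : ∃ d0 : D, n0 • d0 = -c ∧ d0 N = 0 := by
    by_cases h : n0 = 0
    · refine ⟨0, ?_, rfl⟩
      rw [h, zpow_zero, mul_one] at hm0
      have := (hv m0).1 hm0
      rw [hc, this, smul_zero, neg_zero]
    · obtain ⟨b, hb, hb'⟩ := D_div n0 h (-c)
      refine ⟨b, hb, hb' N ?_⟩
      rw [Finsupp.neg_apply, hc, hSN, neg_zero]
  obtain ⟨u, hu⟩ := A0_ord n0
  refine ⟨d0 + Finsupp.single N u, fun m n => ?_⟩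
  have hz : ∀ t : ℤ, (t * n0) • (Finsupp.single N u : D) = 0 := by
    intro t
    rw [Finsupp.smul_single, (hu _).2 (Dvd.intro_left t rfl), Finsupp.single_zero]
  have key : ∀ t : ℤ, Pm g k m * g k ^ (t * n0) ∈ H ↔ Sm k m v - t • c = 0 := by
    intro t
    have h1 : Pm g k m * g k ^ (t * n0) =
        Pm g k (m + (-t) • m0) * (Pm g k m0 * g k ^ n0) ^ t := by
      rw [Pm_add, Pm_smul, mul_zpow, ← zpow_mul, mul_comm n0 t, zpow_neg]
      group
    have h2 : (Pm g k m0 * g k ^ n0) ^ t ∈ H := H.zpow_mem hm0 t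
    rw [h1, H.mul_mem_cancel_right h2]
    refine (hv _).trans ?_
    rw [Sm_add, Sm_smul, neg_smul, ← sub_eq_add_neg]
  constructor
  · intro h
    have hn : n ∈ K := ⟨m, h⟩
    obtain ⟨t, rfl⟩ := (hK n).1 hn
    rw [mul_comm n0 t] at h ⊢
    have h3 := (key t).1 h
    rw [smul_add, hz, add_zero, mul_smul, hd0, smul_neg, ← sub_eq_add_neg]
    exact h3
  · intro h
    have h4 := DFunLike.congr_fun h N
    rw [Finsupp.add_apply, hSN, zero_add, Finsupp.smul_apply, Finsupp.add_apply, hd0N, zero_add,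
      Finsupp.single_eq_same, Finsupp.zero_apply, hu] at h4
    obtain ⟨t, rfl⟩ := h4
    rw [mul_comm n0 t] at h ⊢
    refine (key t).2 ?_
    rw [smul_add, hz, add_zero, mul_smul, hd0, smul_neg, ← sub_eq_add_neg] at h
    exact h

variable (e : ℕ → D)

def q (k : ℕ) (S : G → Prop) (v : ℕ → D) (j : ℕ) : Prop :=
  Cond g k S v (e j) ∨ ∀ i, ¬ Cond g k S v (e i)

theorem hq (k : ℕ) (S : G → Prop) (v : ℕ → D) : ∃ j, q g e k S v j := by
  by_cases h : ∃ j, Cond g k S v (e j)
  · obtain ⟨j, hj⟩ := h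
    exact ⟨j, Or.inl hj⟩
  · exact ⟨0, Or.inr fun i hi => h ⟨i, hi⟩⟩

open Classical in
noncomputable def st (S : G → Prop) : ℕ → (ℕ → D)
  | 0 => 0
  | (k + 1) => Function.update (st S k) k (e (Nat.find (hq g e k S (st S k))))

theorem st_meas (k : ℕ) : Measurable (fun S : G → Prop => st g e S k) := by
  classical
  induction k with
  | zero => exact measurable_const
  | succ k ih =>
    have hc : ∀ d : D, Measurable (fun S : G → Prop => Cond g k S (st g e S k) d) := by
      intro d
      unfold Cond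
      refine Measurable.forall fun m => Measurable.forall fun n => Measurable.iff ?_ ?_
      · exact measurable_pi_apply _
      · have h1 : Measurable (fun S : G → Prop => Sm k m (st g e S k) + n • d) := by
          refine Measurable.add ?_ measurable_const
          unfold Sm
          refine Finset.measurable_sum _ fun i _ => ?_
          exact (measurable_of_countable (fun x : D => m i • x)).comp
            ((measurable_pi_apply i).comp ih)
        exact measurableSet_setOfPred.1 (h1 (measurableSet_singleton 0))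
    have hf : Measurable (fun S : G → Prop => e (Nat.find (hq g e k S (st g e S k)))) := by
      refine (measurable_of_countable e).comp (measurable_find _ fun j => ?_)
      refine measurableSet_setOfPred.2 (Measurable.or (hc _) (Measurable.forall fun i => (hc _).not))
    refine measurable_pi_iff.2 fun i => ?_
    by_cases hi : i = k
    · subst hi
      have : (fun S : G → Prop => st g e S (i + 1) i) =
          fun S => e (Nat.find (hq g e i S (st g e S i))) := by
        funext S
        exact Function.update_self _ _ _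
      rw [this]
      exact hf
    · have : (fun S : G → Prop => st g e S (k + 1) i) = fun S => st g e S k i := by
        funext S
        exact Function.update_of_ne hi _ _
      rw [this]
      exact (measurable_pi_apply i).comp ih

theorem st_succ_lt (S : G → Prop) (k i : ℕ) (h : i < k) : st g e S (k + 1) i = st g e S k i :=
  Function.update_of_ne h.ne _ _

theorem st_stab (S : G → Prop) (i k : ℕ) (h : i < k) : st g e S k i = st g e S (i + 1) i := by
  induction k with
  | zero => omega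
  | succ k ih =>
    rcases Nat.lt_succ_iff_lt_or_eq.1 h with h1 | h1
    · rw [st_succ_lt g e S k i h1, ih h1]
    · subst h1; rfl

theorem st_inv (he : Function.Surjective e) (H : Subgroup G) (k : ℕ) :
    Inv g k (· ∈ H) (st g e (· ∈ H) k) := by
  classical
  induction k with
  | zero =>
    intro m
    simp [Pm, Sm, H.one_mem]
  | succ k ih =>
    obtain ⟨d, hd⟩ := ext_exists g H k _ ih
    obtain ⟨j, rfl⟩ := he d
    have h1 : Cond g k (· ∈ H) (st g e (· ∈ H) k)
        (e (Nat.find (hq g e k (· ∈ H) (st g e (· ∈ H) k)))) := by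
      rcases Nat.find_spec (hq g e k (· ∈ H) (st g e (· ∈ H) k)) with h | h
      · exact h
      · exact absurd hd (h j)
    intro m
    have h2 : Pm g (k + 1) m = Pm g k m * g k ^ m k := Finset.prod_range_succ _ _
    have h3 : Sm (k + 1) m (st g e (· ∈ H) (k + 1)) = Sm k m (st g e (· ∈ H) k) +
        m k • e (Nat.find (hq g e k (· ∈ H) (st g e (· ∈ H) k))) := by
      unfold Sm
      rw [Finset.sum_range_succ]
      congr 1
      · exact Finset.sum_congr rfl fun i hi => by
          rw [st_succ_lt g e _ k i (Finset.mem_range.1 hi)]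
      · congr 1
        exact Function.update_self _ _ _
    rw [h2, h3]
    exact h1 m (m k)

end

theorem main (G : Type) [CommGroup G] [Countable G] : ∃ φ : (G → Prop) → G → D,
    (∀ a, Measurable (fun S => φ S a)) ∧
    ∀ (H : Subgroup G), (∀ a b, φ (· ∈ H) (a * b) = φ (· ∈ H) a + φ (· ∈ H) b) ∧
      ∀ a, φ (· ∈ H) a = 0 ↔ a ∈ H := by
  classical
  obtain ⟨g, hg⟩ := exists_surjective_nat G
  obtain ⟨e, he⟩ := exists_surjective_nat D
  choose r hr using hg
  refine ⟨fun S a => st g e S (r a + 1) (r a), fun a => ?_, fun H => ?_⟩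
  · exact (measurable_pi_apply (r a)).comp (st_meas g e (r a + 1))
  set F : ℕ → D := fun i => st g e (· ∈ H) (i + 1) i with hF
  have hI : ∀ k (m : ℕ →₀ ℤ), (Pm g k m ∈ H ↔ Sm k m F = 0) := by
    intro k m
    refine (st_inv g e he H k m).trans ?_
    have : Sm k m (st g e (· ∈ H) k) = Sm k m F := by
      unfold Sm
      exact Finset.sum_congr rfl fun i hi => by
        rw [st_stab g e _ i k (Finset.mem_range.1 hi)]
    rw [this]
  have hPs : ∀ (k i : ℕ) (t : ℤ), i < k → Pm g k (Finsupp.single i t) = g i ^ t := by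
    intro k i t hi
    unfold Pm
    rw [Finset.prod_eq_single_of_mem i (Finset.mem_range.2 hi), Finsupp.single_eq_same]
    intro j _ hj
    rw [Finsupp.single_eq_of_ne hj, zpow_zero]
  have hSs : ∀ (k i : ℕ) (t : ℤ), i < k → Sm k (Finsupp.single i t) F = t • F i := by
    intro k i t hi
    unfold Sm
    rw [Finset.sum_eq_single_of_mem i (Finset.mem_range.2 hi), Finsupp.single_eq_same]
    intro j _ hj
    rw [Finsupp.single_eq_of_ne hj, zero_smul]
  have hker : ∀ a, F (r a) = 0 ↔ a ∈ H := by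
    intro a
    have := hI (r a + 1) (Finsupp.single (r a) 1)
    rw [hPs _ _ _ (Nat.lt_succ_self _), hSs _ _ _ (Nat.lt_succ_self _), hr, zpow_one,
      one_smul] at this
    exact this.symm
  refine ⟨fun a b => ?_, hker⟩
  show F (r (a * b)) = F (r a) + F (r b)
  set k := r a + r b + r (a * b) + 1 with hk
  have := (hI k (Finsupp.single (r a) 1 + Finsupp.single (r b) 1 +
    Finsupp.single (r (a * b)) (-1))).1 (by
      rw [Pm_add, Pm_add, hPs _ _ _ (by omega), hPs _ _ _ (by omega), hPs _ _ _ (by omega),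
        hr, hr, hr, zpow_one, zpow_one, zpow_neg, zpow_one, mul_inv_cancel]
      exact H.one_mem)
  rw [Sm_add, Sm_add, hSs _ _ _ (by omega), hSs _ _ _ (by omega), hSs _ _ _ (by omega),
    one_smul, one_smul, neg_smul, one_smul, ← sub_eq_add_neg, sub_eq_zero] at this
  exact this.symm

theorem t : TaskAb := by
  classical
  intro G instG _ hcomm X _ _ hm hst
  let _ : CommGroup G := { instG with mul_comm := hcomm }
  obtain ⟨φ, hφm, hφ⟩ := main G
  let S : X → G → Prop := fun x g => g • x = x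
  have hS : ∀ x, S x = (· ∈ MulAction.stabilizer G x) := by
    intro x
    funext g
    exact propext MulAction.mem_stabilizer_iff.symm
  have hadd : ∀ x a b, φ (S x) (a * b) = φ (S x) a + φ (S x) b := by
    intro x a b
    rw [hS]
    exact (hφ (MulAction.stabilizer G x)).1 a b
  have hker : ∀ x a, φ (S x) a = 0 ↔ a • x = x := by
    intro x a
    rw [hS]
    exact ((hφ (MulAction.stabilizer G x)).2 a).trans MulAction.mem_stabilizer_iff
  have hSinv : ∀ (x : X) (g : G), S (g • x) = S x := by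
    intro x g
    funext h
    refine propext ?_
    show h • g • x = g • x ↔ h • x = x
    rw [← mul_smul, hcomm h g, mul_smul]
    exact ⟨fun h1 => (MulAction.injective g) h1, fun h1 => by rw [h1]⟩
  let β : X → X → Multiplicative D := fun y x =>
    if h : ∃ g : G, g • x = y then Multiplicative.ofAdd (φ (S x) h.choose) else 1
  have hβ : ∀ (x : X) (g : G), β (g • x) x = Multiplicative.ofAdd (φ (S x) g) := by
    intro x g
    have h : ∃ g' : G, g' • x = g • x := ⟨g, rfl⟩
    show (if h : ∃ g' : G, g' • x = g • x then Multiplicative.ofAdd (φ (S x) h.choose) else 1) = _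
    rw [dif_pos h]
    congr 1
    have h1 : (g⁻¹ * h.choose) • x = x := by
      rw [mul_smul, h.choose_spec, inv_smul_smul]
    have h2 := (hker x _).2 h1
    have h3 : φ (S x) (g * (g⁻¹ * h.choose)) = φ (S x) g + φ (S x) (g⁻¹ * h.choose) := hadd _ _ _
    rw [h2, add_zero, mul_inv_cancel_left] at h3
    exact h3
  have hSm : Measurable S := by
    refine measurable_pi_iff.2 fun g => ?_
    exact measurableSet_setOfPred.1 (hst g)
  refine ⟨Multiplicative D, inferInstance, inferInstance, β, fun _ => 0, ?_, ?_, ?_, ?_⟩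
  · rintro x - y - z - ⟨g, rfl⟩ ⟨g', rfl⟩
    rw [hβ, hβ, ← mul_smul, hβ, hadd, hSinv]
    rfl
  · rintro x - y - ⟨g, rfl⟩ h -
    rw [hβ] at h
    exact ((hker x g).1 h).symm
  · intro g γ
    have : {x | x ∈ (Set.univ : Set X) ∧ g • x ∈ (Set.univ : Set X) ∧ β (g • x) x = γ} =
        (fun x => φ (S x) g) ⁻¹' {Multiplicative.toAdd γ} := by
      ext x
      simp only [Set.mem_univ, true_and, hβ]
      exact Iff.rfl
    rw [this]
    exact ((hφm g).comp hSm) (measurableSet_singleton _)
  · intro k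
    by_cases hk : 0 = k
    · simp [hk]
    · simp [hk]

end Pool.Agent.H938R3.EFAb
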