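-- proved by helper553 (project H418-EF)
import Pool.Agent.H418R3.EF.Stmts

set_option autoImplicit false

namespace Pool.Agent.H553R3.EFC

open Pool.Agent.H418R3.EF

open scoped Pointwise

theorem comm_iff (h g : GQ 2) : h * g = g * h ↔ ∀ w, h (g w) = g (h w) := by
  constructor
  · intro e w
    exact DFunLike.congr_fun e w
  · intro e
    exact LinearEquiv.ext e

theorem cyc (g : GQ 2) (hg : ¬ IsScal g) : ∃ v : V 2, v 0 * (g v) 1 - v 1 * (g v) 0 ≠ 0 := by
  by_contra hcon
  push Not at hcon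
  apply hg
  have h0 := hcon ![1, 0]
  have h1 := hcon ![0, 1]
  have h2 := hcon ![1, 1]
  have e2 : (![1, 1] : V 2) = ![1, 0] + ![0, 1] := by
    ext i; fin_cases i <;> simp
  rw [e2, map_add] at h2
  simp only [Pi.add_apply, Matrix.cons_val_zero, Matrix.cons_val_one, Matrix.cons_val_fin_one] at h0 h1 h2
  refine ⟨(g ![1, 0]) 0, fun w => ?_⟩
  have ew : w = w 0 • (![1, 0] : V 2) + w 1 • (![0, 1] : V 2) := by
    ext i; fin_cases i <;> simp
  conv_lhs => rw [ew]
  rw [map_add, map_smul, map_smul]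
  ext i
  fin_cases i
  · simp only [Pi.add_apply, Pi.smul_apply, smul_eq_mul, Fin.zero_eta, Fin.isValue]
    linear_combination (-w 1) * h1
  · simp only [Pi.add_apply, Pi.smul_apply, smul_eq_mul, Fin.mk_one, Fin.isValue]
    linear_combination (w 0) * h0 + w 1 * (h2 - h0 - h1)

/-- coordinates -/
def ca (v u w : V 2) : ℚ := (w 0 * u 1 - w 1 * u 0) / (v 0 * u 1 - v 1 * u 0)
def cb (v u w : V 2) : ℚ := (v 0 * w 1 - v 1 * w 0) / (v 0 * u 1 - v 1 * u 0)

theorem expand (v u w : V 2) (hD : v 0 * u 1 - v 1 * u 0 ≠ 0) :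
    w = ca v u w • v + cb v u w • u := by
  ext i
  unfold ca cb
  fin_cases i
  · simp only [Pi.add_apply, Pi.smul_apply, smul_eq_mul, Fin.zero_eta, Fin.isValue]
    rw [div_mul_eq_mul_div, div_mul_eq_mul_div, ← add_div, eq_div_iff hD]
    ring
  · simp only [Pi.add_apply, Pi.smul_apply, smul_eq_mul, Fin.mk_one, Fin.isValue]
    rw [div_mul_eq_mul_div, div_mul_eq_mul_div, ← add_div, eq_div_iff hD]
    ring

theorem comm_form (g : GQ 2) (v : V 2) (hD : v 0 * (g v) 1 - v 1 * (g v) 0 ≠ 0) (k : GQ 2)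
    (hk : k * g = g * k) : ∃ a b : ℚ, ∀ w, k w = a • w + b • g w := by
  rw [comm_iff] at hk
  refine ⟨ca v (g v) (k v), cb v (g v) (k v), fun w => ?_⟩
  have e1 := expand v (g v) (k v) hD
  have e2 := expand v (g v) w hD
  generalize ca v (g v) (k v) = a at *
  generalize cb v (g v) (k v) = b at *
  generalize ca v (g v) w = x at *
  generalize cb v (g v) w = y at *
  rw [e2]
  simp only [map_add, map_smul]
  rw [hk, e1]
  simp only [map_add, map_smul]
  module

/-- the involution -/
def Sm (g : GQ 2) (v : V 2) (t : ℚ) : V 2 →ₗ[ℚ] V 2 where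
  toFun w := ca v (g v) w • v + cb v (g v) w • (t • v - g v)
  map_add' x y := by
    have e1 : ca v (g v) (x + y) = ca v (g v) x + ca v (g v) y := by
      unfold ca; simp only [Pi.add_apply]; ring
    have e2 : cb v (g v) (x + y) = cb v (g v) x + cb v (g v) y := by
      unfold cb; simp only [Pi.add_apply]; ring
    rw [e1, e2]; module
  map_smul' c x := by
    have e1 : ca v (g v) (c • x) = c * ca v (g v) x := by
      unfold ca; simp only [Pi.smul_apply, smul_eq_mul]; ring
    have e2 : cb v (g v) (c • x) = c * cb v (g v) x := by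
      unfold cb; simp only [Pi.smul_apply, smul_eq_mul]; ring
    rw [e1, e2]
    simp only [RingHom.id_apply]
    module

theorem Sm_v (g : GQ 2) (v : V 2) (t : ℚ) (hD : v 0 * (g v) 1 - v 1 * (g v) 0 ≠ 0) :
    Sm g v t v = v := by
  show ca v (g v) v • v + cb v (g v) v • (t • v - g v) = v
  have e1 : ca v (g v) v = 1 := by unfold ca; exact div_self hD
  have e2 : cb v (g v) v = 0 := by unfold cb; rw [mul_comm (v 0), sub_self, zero_div]
  rw [e1, e2]; module

theorem Sm_gv (g : GQ 2) (v : V 2) (t : ℚ) (hD : v 0 * (g v) 1 - v 1 * (g v) 0 ≠ 0) :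
    Sm g v t (g v) = t • v - g v := by
  show ca v (g v) (g v) • v + cb v (g v) (g v) • (t • v - g v) = _
  have e1 : ca v (g v) (g v) = 0 := by unfold ca; rw [mul_comm ((g v) 0), sub_self, zero_div]
  have e2 : cb v (g v) (g v) = 1 := by unfold cb; exact div_self hD
  rw [e1, e2]; module

theorem exists_sigma (g : GQ 2) (v : V 2) (hD : v 0 * (g v) 1 - v 1 * (g v) 0 ≠ 0) (t d : ℚ)
    (ht : ∀ w, g (g w) = t • g w - d • w) :
    ∃ σ : GQ 2, σ * σ = 1 ∧ ∀ w, σ (g w) = t • σ w - g (σ w) := by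
  have hv := Sm_v g v t hD
  have hgv := Sm_gv g v t hD
  have hinv : Function.Involutive (Sm g v t) := by
    intro w
    rw [expand v (g v) w hD]
    simp only [map_add, map_smul, hv, hgv, map_sub]
    module
  refine ⟨LinearEquiv.ofInvolutive (Sm g v t) hinv, ?_, ?_⟩
  · apply LinearEquiv.ext
    intro w
    exact hinv w
  · intro w
    show Sm g v t (g w) = t • Sm g v t w - g (Sm g v t w)
    rw [expand v (g v) w hD]
    simp only [map_add, map_smul, hv, hgv, map_sub, ht]
    module

theorem semi_not_scal (g : GQ 2) (hg : Semi g) : ¬ IsScal g := by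
  rintro ⟨c, hc⟩
  apply hg
  refine ⟨c, fun v => ?_⟩
  rw [hc, hc]
  module

theorem smul_mem_PC (g τ : GQ 2) (hN : ∀ k : GQ 2, k * g = g * k → (τ * k * τ⁻¹) * g = g * (τ * k * τ⁻¹))
    (x : Sn 2) (hx : x ∈ PC g) : τ • x ∈ PC g := by
  obtain ⟨h1, k, hk, hs⟩ := hx
  refine ⟨?_, τ * k * τ⁻¹, ?_, ?_⟩
  · intro h hh
    have e : (τ⁻¹ * h * τ) • x = x := by
      rw [mul_smul, mul_smul, hh, ← mul_smul, inv_mul_cancel, one_smul]
    have := hN _ (h1 _ e)
    have e2 : τ * (τ⁻¹ * h * τ) * τ⁻¹ = h := by group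
    rwa [e2] at this
  · rw [mul_smul, mul_smul, ← mul_smul τ⁻¹ τ, inv_mul_cancel, one_smul, hk]
  · rintro ⟨c, hc⟩
    apply hs
    refine ⟨c, fun w => ?_⟩
    have h2 := hc (τ w)
    have e3 : (τ * k * τ⁻¹) (τ w) = τ (k w) := by
      show τ (k (τ⁻¹ (τ w))) = τ (k w)
      have : τ⁻¹ (τ w) = w := LinearEquiv.symm_apply_apply τ w
      rw [this]
    rw [e3, ← map_smul] at h2
    exact τ.injective h2

theorem restrict (G : Type) [Group G] {X : Type} [MeasurableSpace X] [MulAction G X]
    (hm : ∀ g : G, Measurable (fun x : X => g • x)) (P : Set X) (hP : MeasurableSet P)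
    (h : HasCoc G (Set.univ : Set X)) : HasCoc G P := by
  obtain ⟨Γ, i1, i2, β, ℓ, h1, h2, h3, h4⟩ := h
  refine ⟨Γ, i1, i2, β, ℓ, ?_, ?_, ?_, ?_⟩
  · intro x _ y _ z _ hxy hyz
    exact h1 x (Set.mem_univ _) y (Set.mem_univ _) z (Set.mem_univ _) hxy hyz
  · intro x _ y _ hxy
    exact h2 x (Set.mem_univ _) y (Set.mem_univ _) hxy
  · intro g γ
    have := (hP.inter (hm g hP)).inter (h3 g γ)
    convert this using 1
    ext x
    constructor
    · rintro ⟨a, b, c⟩; exact ⟨⟨a, b⟩, Set.mem_univ _, Set.mem_univ _, c⟩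
    · rintro ⟨⟨a, b⟩, _, _, c⟩; exact ⟨a, b, c⟩
  · intro k
    have := hP.inter (h4 k)
    convert this using 1
    ext x
    constructor
    · rintro ⟨a, b⟩; exact ⟨a, Set.mem_univ _, b⟩
    · rintro ⟨a, _, b⟩; exact ⟨a, b⟩

theorem taskC : TaskC := by
  intro hAb hIdx hStd hMeas g hg
  obtain ⟨v, hD⟩ := cyc g (semi_not_scal g hg)
  obtain ⟨hcount, hsb, hm, hst, hmem⟩ := hStd 2
  haveI := hcount
  obtain ⟨dd, t, htd⟩ := comm_form g v hD g rfl |> fun _ =>
    (⟨ca v (g v) (g (g v)), cb v (g v) (g (g v)), expand v (g v) (g (g v)) hD⟩ :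
      ∃ a b : ℚ, g (g v) = a • v + b • g v)
  have ht : ∀ w, g (g w) = t • g w - (-dd) • w := by
    intro w
    rw [expand v (g v) w hD]
    simp only [map_add, map_smul, htd]
    module
  set d := -dd with hd
  have hdisc : t ^ 2 ≠ 4 * d := by
    intro h
    apply hg
    refine ⟨t / 2, fun w => ?_⟩
    rw [ht w]
    have : (t / 2) ^ 2 = d := by linarith [h, show (t / 2) ^ 2 = t ^ 2 / 4 by ring]
    rw [this]
    module
  obtain ⟨σ, hσ2, hσ⟩ := exists_sigma g v hD t d ht
  have hσi : σ⁻¹ = σ := inv_eq_of_mul_eq_one_left hσ2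
  -- normalising
  have hN : ∀ k : GQ 2, k * g = g * k → (σ * k * σ⁻¹) * g = g * (σ * k * σ⁻¹) := by
    intro k hk
    rw [comm_iff] at hk ⊢
    rw [hσi]
    intro w
    show σ (k (σ (g w))) = g (σ (k (σ w)))
    rw [hσ, map_sub, map_smul, hk, map_sub, map_smul, hσ]
    abel
  have hNi : ∀ k : GQ 2, k * g = g * k → (σ⁻¹ * k * σ⁻¹⁻¹) * g = g * (σ⁻¹ * k * σ⁻¹⁻¹) := by
    rw [hσi]; exact hN
  have hmemH : ∀ h : GQ 2, h ∈ Subgroup.centralizer {g} ↔ h * g = g * h := by
    intro h
    rw [Subgroup.mem_centralizer_singleton_iff]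
  have hbg : ∀ a b : ℚ, a • v + b • g v = 0 → a = 0 ∧ b = 0 := by
    intro a b hab
    have q0 := congrFun hab 0
    have q1 := congrFun hab 1
    simp only [Pi.add_apply, Pi.smul_apply, smul_eq_mul, Pi.zero_apply] at q0 q1
    constructor
    · have : a * (v 0 * (g v) 1 - v 1 * (g v) 0) = 0 := by
        linear_combination (g v) 1 * q0 - (g v) 0 * q1
      exact (mul_eq_zero.1 this).resolve_right hD
    · have : b * (v 0 * (g v) 1 - v 1 * (g v) 0) = 0 := by
        linear_combination v 0 * q1 - v 1 * q0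
      exact (mul_eq_zero.1 this).resolve_right hD
  refine hIdx (GQ 2) (Sn 2) hm hst (Subgroup.centralizer {g}) σ (PC g) (hMeas.2.1 g) ?_ ?_ ?_ ?_ ?_ ?_ ?_ ?_
  · intro h hh
    rw [hmemH] at hh ⊢
    exact hN h hh
  · intro h hh
    rw [hmemH] at hh ⊢
    have := hNi h hh
    rwa [inv_inv] at this
  · rw [hσ2]; exact Subgroup.one_mem _
  · intro h hh x hx
    rw [hmemH] at hh
    apply smul_mem_PC g h _ x hx
    intro k hk
    have e1 : Commute h g := hh
    have e2 : Commute k g := hk
    exact ((e1.mul_left e2).mul_left e1.inv_left)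
  · intro x hx; exact smul_mem_PC g σ hN x hx
  · intro x hx; exact smul_mem_PC g σ⁻¹ hNi x hx
  · intro x hx h hh
    obtain ⟨h1, k, hk, hs⟩ := hx
    obtain ⟨a, b, hab⟩ := comm_form g v hD k (h1 k hk)
    have hb : b ≠ 0 := by
      intro hb
      apply hs
      refine ⟨a, fun w => ?_⟩
      rw [hab, hb, zero_smul, add_zero]
    have hk2 : (h * k * h⁻¹) • (h • x) = h • x := by
      rw [mul_smul, mul_smul, ← mul_smul h⁻¹ h, inv_mul_cancel, one_smul, hk]
    have hc := hh.1 _ hk2
    rw [comm_iff] at hc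
    -- h g h⁻¹ commutes with g
    have hc2 : (h * g * h⁻¹) * g = g * (h * g * h⁻¹) := by
      rw [comm_iff]
      intro w
      have q := hc w
      have e1 : ∀ u, (h * k * h⁻¹) u = a • u + b • (h * g * h⁻¹) u := by
        intro u
        show h (k (h⁻¹ u)) = a • u + b • h (g (h⁻¹ u))
        rw [hab, map_add, map_smul, map_smul]
        have : h (h⁻¹ u) = u := LinearEquiv.apply_symm_apply h u
        rw [this]
      rw [e1, e1, map_add, map_smul, map_smul] at q
      have q2 := add_left_cancel q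
      exact smul_right_injective _ hb q2
    obtain ⟨α, β, hαβ⟩ := comm_form g v hD _ hc2
    have hquad : ∀ w, (h * g * h⁻¹) ((h * g * h⁻¹) w) = t • (h * g * h⁻¹) w - d • w := by
      intro w
      show h (g (h⁻¹ (h (g (h⁻¹ w))))) = t • h (g (h⁻¹ w)) - d • w
      have e1 : ∀ u, h⁻¹ (h u) = u := fun u => LinearEquiv.symm_apply_apply h u
      have e2 : ∀ u, h (h⁻¹ u) = u := fun u => LinearEquiv.apply_symm_apply h u
      rw [e1, ht, map_sub, map_smul, map_smul, e2]
    have hq := hquad v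
    rw [hαβ, hαβ, map_add, map_smul, map_smul, ht] at hq
    have hz : (α ^ 2 - β ^ 2 * d - t * α + d) • v + (β * (2 * α + β * t - t)) • g v = 0 := by
      have : (α ^ 2 - β ^ 2 * d - t * α + d) • v + (β * (2 * α + β * t - t)) • g v =
        (α • (α • v + β • g v) + β • (α • g v + β • (t • g v - d • v))) - (t • (α • v + β • g v) - d • v) := by
        module
      rw [this, hq, sub_self]
    obtain ⟨z1, z2⟩ := hbg _ _ hz
    have hβ : β ≠ 0 := by
      intro hβ
      apply semi_not_scal g hg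
      refine ⟨α, fun w => ?_⟩
      have := hαβ (h w)
      rw [hβ, zero_smul, add_zero] at this
      have e1 : (h * g * h⁻¹) (h w) = h (g w) := by
        show h (g (h⁻¹ (h w))) = h (g w)
        have : h⁻¹ (h w) = w := LinearEquiv.symm_apply_apply h w
        rw [this]
      rw [e1, ← map_smul] at this
      exact h.injective this
    have z3 : 2 * α + β * t - t = 0 := (mul_eq_zero.1 z2).resolve_left hβ
    have z4 : (β ^ 2 - 1) * (t ^ 2 - 4 * d) = 0 := by
      have hα : α = t * (1 - β) / 2 := by linarith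
      rw [hα] at z1
      linear_combination 4 * z1
    have z5 : β ^ 2 - 1 = 0 := (mul_eq_zero.1 z4).resolve_right (sub_ne_zero.2 hdisc)
    have z6 : (β - 1) * (β + 1) = 0 := by linear_combination z5
    have hgen : ∀ w, h (g w) = α • h w + β • g (h w) := by
      intro w
      have := hαβ (h w)
      have e1 : (h * g * h⁻¹) (h w) = h (g w) := by
        show h (g (h⁻¹ (h w))) = h (g w)
        have : h⁻¹ (h w) = w := LinearEquiv.symm_apply_apply h w
        rw [this]
      rw [e1] at this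
      exact this
    rcases mul_eq_zero.1 z6 with hb1 | hb1
    · left
      have hβ1 : β = 1 := by linarith
      have hα0 : α = 0 := by rw [hβ1] at z3; linarith
      rw [hmemH, comm_iff]
      intro w
      rw [hgen, hα0, hβ1]; module
    · right
      have hβ1 : β = -1 := by linarith
      have hα0 : α = t := by rw [hβ1] at z3; linarith
      rw [hmemH, comm_iff, hσi]
      intro w
      show σ (h (g w)) = g (σ (h w))
      rw [hgen, hα0, hβ1, map_add, map_smul, map_smul, hσ]
      module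
  · apply restrict
    · intro h; exact hm h.1
    · exact hMeas.2.1 g
    · apply hAb
      · rintro ⟨a, ha⟩ ⟨b, hb⟩
        apply Subtype.ext
        show a * b = b * a
        rw [hmemH] at ha hb
        obtain ⟨x, y, hxy⟩ := comm_form g v hD a ha
        rw [comm_iff] at hb ⊢
        intro w
        rw [hxy, hxy, map_add, map_smul, map_smul, hb]
      · intro h; exact hm h.1
      · intro h; exact hst h.1

end Pool.Agent.H553R3.EFC
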