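-- proved by helper64 (project H418-EF)
import Pool.Agent.H418R3.EF.Stmts

set_option autoImplicit false

namespace Pool.Agent.H64R3.EFE

open Pool.Agent.H418R3.EF
open scoped Pointwise

variable {n : ℕ}

/-- standard basis vector -/
def b (i : Fin n) : V n := Pi.single i 1

/-- `A` localised at `p` contains `p ^ k` times the standard lattice. -/
def L (p : ℕ) (k : ℤ) (A : AddSubgroup (V n)) : Prop :=
  ∀ i : Fin n, ∃ m : ℤ, IsCoprime m (p : ℤ) ∧ ((m : ℚ) * (p : ℚ) ^ k) • b i ∈ A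

theorem intmem {A : AddSubgroup (V n)} {v : V n} (hv : v ∈ A) (z : ℤ) : (z : ℚ) • v ∈ A := by
  rw [Int.cast_smul_eq_zsmul ℚ]
  exact A.zsmul_mem hv z

theorem L_succ {p : ℕ} (hp : p ≠ 0) {k : ℤ} {A : AddSubgroup (V n)} (h : L p k A) :
    L p (k + 1) A := by
  intro i
  obtain ⟨m, hm, hA⟩ := h i
  refine ⟨m, hm, ?_⟩
  have hp' : (p : ℚ) ≠ 0 := by exact_mod_cast hp
  have := intmem hA (p : ℤ)
  rw [smul_smul] at this
  convert this using 2
  rw [zpow_add_one₀ hp']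
  push_cast
  ring

theorem L_mono {p : ℕ} (hp : p ≠ 0) {k l : ℤ} (hkl : k ≤ l) {A : AddSubgroup (V n)}
    (h : L p k A) : L p l A := by
  induction l, hkl using Int.le_induction with
  | base => exact h
  | succ l _ ih => exact L_succ hp ih

theorem tors {A : AddSubgroup (V n)} (hA : Submodule.span ℚ (A : Set (V n)) = ⊤) (v : V n) :
    ∃ N : ℕ, 0 < N ∧ (N : ℚ) • v ∈ A := by
  have hv : v ∈ Submodule.span ℚ (A : Set (V n)) := by rw [hA]; trivial
  induction hv using Submodule.span_induction with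
  | mem x hx => exact ⟨1, one_pos, by simpa using hx⟩
  | zero => exact ⟨1, one_pos, by simp⟩
  | add x y _ _ hx hy =>
    obtain ⟨N, hN, h1⟩ := hx
    obtain ⟨M, hM, h2⟩ := hy
    refine ⟨N * M, Nat.mul_pos hN hM, ?_⟩
    have e : ((N * M : ℕ) : ℚ) • (x + y) = ((M : ℤ) : ℚ) • ((N : ℚ) • x) +
        ((N : ℤ) : ℚ) • ((M : ℚ) • y) := by
      rw [smul_add, smul_smul, smul_smul]
      push_cast
      congr 2
      ring
    rw [e]
    exact A.add_mem (intmem h1 _) (intmem h2 _)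
  | smul q x _ hx =>
    obtain ⟨N, hN, h1⟩ := hx
    refine ⟨N * q.den, Nat.mul_pos hN q.pos, ?_⟩
    have e : ((N * q.den : ℕ) : ℚ) • q • x = ((q.num : ℤ) : ℚ) • ((N : ℚ) • x) := by
      rw [smul_smul, smul_smul]
      congr 1
      push_cast
      have := Rat.mul_den_eq_num q
      calc (N : ℚ) * q.den * q = (q * q.den) * N := by ring
        _ = q.num * N := by rw [this]
    rw [e]
    exact intmem h1 _

theorem cop_of {p m : ℕ} (hp : p.Prime) (h : ¬ p ∣ m) : IsCoprime (m : ℤ) (p : ℤ) :=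
  Nat.isCoprime_iff_coprime.2 ((Nat.Prime.coprime_iff_not_dvd hp).2 h).symm

theorem exists_L {p : ℕ} (hp : p.Prime) {A : AddSubgroup (V n)}
    (hA : Submodule.span ℚ (A : Set (V n)) = ⊤) : ∃ k, L p k A := by
  have h1 : ∀ i : Fin n, ∃ a m : ℕ, ¬ p ∣ m ∧ (((p : ℚ) ^ a * m) • b i) ∈ A := by
    intro i
    obtain ⟨N, hN, h⟩ := tors hA (b i)
    obtain ⟨a, m, hm, hNm⟩ := Nat.exists_eq_pow_mul_and_not_dvd hN.ne' p hp.ne_one
    refine ⟨a, m, hm, ?_⟩
    rw [hNm] at h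
    push_cast at h
    exact h
  choose a m hm hA' using h1
  refine ⟨((∑ i, a i : ℕ) : ℤ), fun i => ⟨m i, cop_of hp (hm i), ?_⟩⟩
  have hle : a i ≤ ∑ i, a i := Finset.single_le_sum (fun _ _ => Nat.zero_le _) (Finset.mem_univ i)
  obtain ⟨d, hd⟩ := Nat.exists_eq_add_of_le hle
  have := intmem (hA' i) ((p : ℤ) ^ d)
  rw [smul_smul] at this
  convert this using 2
  rw [zpow_natCast, hd, pow_add]
  push_cast
  ring

theorem Lcomb {p : ℕ} {k : ℤ} {A : AddSubgroup (V n)} (h : L p k A) (z : Fin n → ℤ) :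
    ∃ m : ℤ, IsCoprime m (p : ℤ) ∧ ((m : ℚ) * (p : ℚ) ^ k) • (fun j => (z j : ℚ) : V n) ∈ A := by
  choose m hm hA using h
  refine ⟨∏ j, m j, IsCoprime.prod_left fun j _ => hm j, ?_⟩
  have e2 : (((∏ j, m j : ℤ) : ℚ) * (p : ℚ) ^ k) • (fun j => (z j : ℚ) : V n) =
      ∑ j, (((z j * ∏ l ∈ Finset.univ.erase j, m l : ℤ) : ℚ)) • (((m j : ℚ) * (p : ℚ) ^ k) • b j) := by
    have e3 : (fun j => (z j : ℚ) : V n) = ∑ j, (z j : ℚ) • b j := by
      funext l
      simp [b, Finset.sum_apply, Pi.single_apply]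
    rw [e3, Finset.smul_sum]
    refine Finset.sum_congr rfl fun j _ => ?_
    rw [smul_smul, smul_smul]
    congr 1
    rw [← Finset.mul_prod_erase Finset.univ m (Finset.mem_univ j)]
    push_cast
    ring
  rw [e2]
  exact A.sum_mem fun j _ => intmem (hA j) _

theorem Lvec {p : ℕ} {k : ℤ} {A : AddSubgroup (V n)} (h : L p k A) (w : V n) (D : ℤ)
    (hD : IsCoprime D (p : ℤ)) (z : Fin n → ℤ) (hz : (D : ℚ) • w = fun j => (z j : ℚ)) :
    ∃ m : ℤ, IsCoprime m (p : ℤ) ∧ ((m : ℚ) * (p : ℚ) ^ k) • w ∈ A := by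
  obtain ⟨m, hm, h1⟩ := Lcomb h z
  refine ⟨m * D, hm.mul_left hD, ?_⟩
  rw [← hz, smul_smul] at h1
  convert h1 using 2
  push_cast
  ring

theorem L_smul {p : ℕ} {k : ℤ} {A : Sn n} (h : L p k A.1) (g : GQ n) (D : ℤ)
    (hD : IsCoprime D (p : ℤ))
    (hz : ∀ i, ∃ z : Fin n → ℤ, (D : ℚ) • (g⁻¹ (b i)) = fun j => (z j : ℚ)) :
    L p k (g • A).1 := by
  intro i
  obtain ⟨z, hz⟩ := hz i
  obtain ⟨m, hm, h1⟩ := Lvec h (g⁻¹ (b i)) D hD z hz
  refine ⟨m, hm, ?_⟩
  rw [mem_smul, map_smul]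
  exact h1

theorem exists_D (w : V n) : ∃ D : ℕ, 0 < D ∧ ∃ z : Fin n → ℤ, (D : ℚ) • w = fun j => (z j : ℚ) := by
  refine ⟨∏ j, (w j).den, Finset.prod_pos fun j _ => (w j).pos,
    fun j => (w j).num * ∏ l ∈ Finset.univ.erase j, ((w l).den : ℤ), ?_⟩
  funext j
  rw [Pi.smul_apply, smul_eq_mul, ← Finset.mul_prod_erase Finset.univ (fun j => (w j).den)
    (Finset.mem_univ j)]
  push_cast
  have := Rat.mul_den_eq_num (w j)
  rw [← this]
  ring

theorem exists_D' (g : GQ n) : ∃ D : ℕ, 0 < D ∧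
    ∀ i, ∃ z : Fin n → ℤ, ((D : ℤ) : ℚ) • (g (b i)) = fun j => (z j : ℚ) := by
  choose D hD z hz using fun i => exists_D (g (b i))
  refine ⟨∏ i, D i, Finset.prod_pos fun i _ => hD i, fun i =>
    ⟨fun j => (∏ l ∈ Finset.univ.erase i, (D l : ℤ)) * z i j, ?_⟩⟩
  have h1 := hz i
  funext j
  have h2 := congrFun h1 j
  rw [Pi.smul_apply, smul_eq_mul] at h2
  rw [Pi.smul_apply, smul_eq_mul, ← Finset.mul_prod_erase Finset.univ D (Finset.mem_univ i)]
  push_cast
  rw [← h2]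
  ring

open Classical in
/-- the exponent -/
noncomputable def e (p : ℕ) (A : Sn n) : ℤ := if p.Prime then sInf {k : ℤ | L p k A.1} else 0

theorem e_eq_iff {p : ℕ} (hp : p.Prime) (A : Sn n) (k : ℤ) :
    e p A = k ↔ (L p k A.1 ∧ ¬ L p (k - 1) A.1) ∨ (k = 0 ∧ ∀ j : ℤ, L p j A.1) := by
  have hne : {k : ℤ | L p k A.1}.Nonempty := exists_L hp A.2
  unfold e
  rw [if_pos hp]
  by_cases hb : BddBelow {k : ℤ | L p k A.1}
  · have hmem : L p (sInf {k : ℤ | L p k A.1}) A.1 := Int.csInf_mem hne hb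
    constructor
    · rintro rfl
      left
      refine ⟨hmem, fun h => ?_⟩
      have := csInf_le hb h
      omega
    · rintro (⟨h1, h2⟩ | ⟨_, h⟩)
      · apply le_antisymm (csInf_le hb h1)
        by_contra hlt
        push Not at hlt
        exact h2 (L_mono hp.ne_zero (by omega) hmem)
      · obtain ⟨B, hB⟩ := hb
        have := hB (h (B - 1))
        omega
  · have hall : ∀ j : ℤ, L p j A.1 := by
      intro j
      by_contra hj
      apply hb
      refine ⟨j, fun l hl => ?_⟩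
      by_contra hlt
      push Not at hlt
      exact hj (L_mono hp.ne_zero hlt.le hl)
    rw [Int.csInf_of_not_bddBelow hb]
    constructor
    · rintro rfl; exact Or.inr ⟨rfl, hall⟩
    · rintro (⟨_, h2⟩ | ⟨h, _⟩)
      · exact absurd (hall _) h2
      · exact h.symm

theorem meas_mem (v : V n) : MeasurableSet {A : Sn n | v ∈ A.1} := by
  have h : Measurable (fun A : Sn n => fun v : V n => v ∈ A.1) := comap_measurable _
  exact measurableSet_setOf.2 ((measurable_pi_apply v).comp h)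

theorem meas_L (p : ℕ) (k : ℤ) : MeasurableSet {A : Sn n | L p k A.1} := by
  have h : {A : Sn n | L p k A.1} = ⋂ i : Fin n, ⋃ m : {m : ℤ // IsCoprime m (p : ℤ)},
      {A : Sn n | ((m.1 : ℚ) * (p : ℚ) ^ k) • b i ∈ A.1} := by
    ext A
    simp [L]
  rw [h]
  exact MeasurableSet.iInter fun i => MeasurableSet.iUnion fun m => meas_mem _

theorem meas_e (p : ℕ) (k : ℤ) : MeasurableSet {A : Sn n | e p A = k} := by
  by_cases hp : p.Prime
  · have h : {A : Sn n | e p A = k} = ({A : Sn n | L p k A.1} ∩ {A : Sn n | L p (k - 1) A.1}ᶜ) ∪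
        ({_A : Sn n | k = 0} ∩ ⋂ j : ℤ, {A : Sn n | L p j A.1}) := by
      ext A
      simp only [Set.mem_setOf_eq, Set.mem_union, Set.mem_inter_iff, Set.mem_compl_iff,
        Set.mem_iInter]
      exact e_eq_iff hp A k
    rw [h]
    exact ((meas_L p k).inter (meas_L p (k - 1)).compl).union
      ((MeasurableSet.const _).inter (MeasurableSet.iInter fun j => meas_L p j))
  · simp only [e, if_neg hp]
    exact MeasurableSet.const _

theorem fin_e (g : GQ n) (A : Sn n) : {p | e p (g • A) ≠ e p A}.Finite := by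
  obtain ⟨D, hD, h1⟩ := exists_D' g
  obtain ⟨D', hD', h2⟩ := exists_D' g⁻¹
  refine Set.Finite.subset (Nat.divisors (D * D')).finite_toSet ?_
  intro p hp
  rw [Set.mem_setOf_eq] at hp
  rw [Finset.mem_coe, Nat.mem_divisors]
  refine ⟨?_, (Nat.mul_pos hD hD').ne'⟩
  by_contra hdvd
  apply hp
  by_cases hpp : p.Prime
  · have hc1 : IsCoprime (D : ℤ) (p : ℤ) := cop_of hpp fun h => hdvd (h.mul_right _)
    have hc2 : IsCoprime (D' : ℤ) (p : ℤ) := cop_of hpp fun h => hdvd (h.mul_left _)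
    have key : ∀ k : ℤ, L p k (g • A).1 ↔ L p k A.1 := by
      intro k
      constructor
      · intro h
        have h3 := L_smul h g⁻¹ D hc1 (by simpa only [inv_inv] using h1)
        rwa [inv_smul_smul] at h3
      · intro h
        exact L_smul h g D' hc2 h2
    unfold e
    rw [if_pos hpp, if_pos hpp]
    simp only [key]
  · simp [e, hpp]

theorem div_of_all {p : ℕ} (hp : p.Prime) {A : AddSubgroup (V n)} (h : ∀ k : ℤ, L p k A)
    {x : V n} (hx : x ∈ A) : ((p : ℚ)⁻¹) • x ∈ A := by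
  have hp0 : (p : ℚ) ≠ 0 := by exact_mod_cast hp.ne_zero
  obtain ⟨D, hD, z, hz⟩ := exists_D (((p : ℚ)⁻¹) • x)
  obtain ⟨a, m, hm, hDm⟩ := Nat.exists_eq_pow_mul_and_not_dvd hD.ne' p hp.ne_one
  obtain ⟨M, hM, h1⟩ := Lcomb (h (-(a : ℤ))) z
  rw [← hz, smul_smul] at h1
  have e1 : ((M : ℚ) * (p : ℚ) ^ (-(a : ℤ)) * (D : ℚ)) = ((M * m : ℤ) : ℚ) := by
    rw [hDm]
    push_cast
    rw [zpow_neg, zpow_natCast]
    field_simp
  rw [e1] at h1
  have hcop : IsCoprime (M * m) (p : ℤ) := hM.mul_left (cop_of hp hm)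
  obtain ⟨u, w, huw⟩ := hcop
  have e2 : ((p : ℚ)⁻¹) • x = (u : ℚ) • (((M * m : ℤ) : ℚ) • ((p : ℚ)⁻¹ • x)) + (w : ℚ) • x := by
    have h3 : (u : ℚ) * ((M * m : ℤ) : ℚ) + (w : ℚ) * (p : ℚ) = 1 := by exact_mod_cast huw
    rw [smul_smul, smul_smul, ← add_smul]
    congr 1
    rw [eq_comm]
    have h5 : (u : ℚ) * (((M * m : ℤ) : ℚ) * (p : ℚ)⁻¹) + (w : ℚ) =
        ((u : ℚ) * ((M * m : ℤ) : ℚ) + (w : ℚ) * (p : ℚ)) * (p : ℚ)⁻¹ := by
      rw [add_mul, mul_assoc (w : ℚ), mul_inv_cancel₀ hp0]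
      ring
    rw [h3, one_mul] at h5
    linear_combination h5
  rw [e2]
  exact A.add_mem (intmem h1 _) (intmem hx _)

theorem scal_L {p : ℕ} (hp : p.Prime) (g : GQ n) (c : ℚ) (hc : ∀ v, g v = c • v) (A : Sn n)
    (s t : ℤ) (v : ℤ) (hs : IsCoprime s (p : ℤ)) (ht : IsCoprime t (p : ℤ))
    (hs0 : s ≠ 0) (ht0 : t ≠ 0) (h : c * t = (p : ℚ) ^ v * s) (k : ℤ) :
    L p k (g • A).1 ↔ L p (k - v) A.1 := by
  have hp0 : (p : ℚ) ≠ 0 := by exact_mod_cast hp.ne_zero
  have hs' : (s : ℚ) ≠ 0 := by exact_mod_cast hs0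
  have ht' : (t : ℚ) ≠ 0 := by exact_mod_cast ht0
  have hc0 : c ≠ 0 := by
    rintro rfl
    rw [zero_mul] at h
    exact (mul_ne_zero (zpow_ne_zero v hp0) hs') h.symm
  have hinv : ∀ w : V n, g⁻¹ w = c⁻¹ • w := by
    intro w
    have h1 : g (c⁻¹ • w) = w := by rw [hc, smul_smul, mul_inv_cancel₀ hc0, one_smul]
    calc g⁻¹ w = g⁻¹ (g (c⁻¹ • w)) := by rw [h1]
      _ = c⁻¹ • w := LinearEquiv.symm_apply_apply g _
  have hcinv : c⁻¹ = t * ((p : ℚ) ^ v)⁻¹ * (s : ℚ)⁻¹ := by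
    have : c = (p : ℚ) ^ v * s / t := by rw [eq_div_iff ht', h]
    rw [this]
    have := zpow_ne_zero v hp0
    field_simp
  constructor
  · intro hL i
    obtain ⟨m, hm, h1⟩ := hL i
    rw [mem_smul, hinv, smul_smul] at h1
    refine ⟨t * m, ht.mul_left hm, ?_⟩
    have h2 := intmem h1 s
    rw [smul_smul] at h2
    convert h2 using 2
    rw [hcinv, zpow_sub₀ hp0]
    push_cast
    field_simp
  · intro hL i
    obtain ⟨m, hm, h1⟩ := hL i
    refine ⟨s * m, hs.mul_left hm, ?_⟩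
    rw [mem_smul, hinv, smul_smul]
    have h2 := intmem h1 t
    rw [smul_smul] at h2
    convert h2 using 2
    rw [hcinv, zpow_sub₀ hp0]
    push_cast
    field_simp

theorem all_of_eq {p : ℕ} (hp : p.Prime) (g : GQ n) (A : Sn n) (v : ℤ) (hv : v ≠ 0)
    (h : ∀ k, L p k (g • A).1 ↔ L p (k - v) A.1) (he : e p (g • A) = e p A) :
    ∀ k : ℤ, L p k A.1 := by
  rcases (e_eq_iff hp A (e p A)).1 rfl with ⟨h1, h2⟩ | ⟨_, h1⟩
  · rcases (e_eq_iff hp (g • A) (e p A)).1 he with ⟨h3, h4⟩ | ⟨_, h3⟩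
    · rw [h] at h3 h4
      exfalso
      rcases lt_or_gt_of_ne hv with hlt | hgt
      · exact h4 (L_mono hp.ne_zero (by omega) h1)
      · exact h2 (L_mono hp.ne_zero (by omega) h3)
    · intro k
      have := (h (k + v)).1 (h3 _)
      rwa [add_sub_cancel_right] at this
  · exact h1

theorem div_nat {A : AddSubgroup (V n)} (N : ℕ) (hN : N ≠ 0)
    (h : ∀ p : ℕ, p.Prime → p ∣ N → ∀ x ∈ A, ((p : ℚ)⁻¹) • x ∈ A) :
    ∀ x ∈ A, ((N : ℚ)⁻¹) • x ∈ A := by
  induction N using Nat.strong_induction_on with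
  | _ N ih =>
    intro x hx
    by_cases h1 : N = 1
    · subst h1; simpa using hx
    · have hmp : (N.minFac).Prime := Nat.minFac_prime h1
      obtain ⟨M, hM⟩ := Nat.minFac_dvd N
      have hM0 : M ≠ 0 := by rintro rfl; exact hN (by rw [hM, mul_zero])
      have hlt : M < N := by
        have := hmp.two_le
        rw [hM]
        nlinarith [Nat.pos_of_ne_zero hM0]
      have h2 := ih M hlt hM0 (fun p hp hd => h p hp (hd.trans ⟨N.minFac, by rw [mul_comm]; exact hM⟩)) _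
        (h _ hmp (Nat.minFac_dvd N) x hx)
      rw [smul_smul] at h2
      convert h2 using 2
      conv_lhs => rw [hM]
      push_cast
      rw [mul_inv, mul_comm]

theorem t : TaskE := by
  intro n hn
  refine ⟨e, meas_e, fin_e, ?_⟩
  rintro g A ⟨c, hc⟩ he
  have hc0 : c ≠ 0 := by
    rintro rfl
    have h1 : g (b ⟨0, hn⟩) = g 0 := by rw [hc, map_zero, zero_smul]
    have h2 := g.injective h1
    have h3 := congrFun h2 ⟨0, hn⟩
    simp [b] at h3
  have hnum : c.num ≠ 0 := Rat.num_ne_zero.2 hc0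
  have hdiv : ∀ p : ℕ, p.Prime → (p ∣ c.num.natAbs ∨ p ∣ c.den) → ∀ k : ℤ, L p k A.1 := by
    intro p hp hpd
    obtain ⟨a, s, hs, hs'⟩ := Nat.exists_eq_pow_mul_and_not_dvd (Int.natAbs_ne_zero.2 hnum) p hp.ne_one
    obtain ⟨d, t, ht, ht'⟩ := Nat.exists_eq_pow_mul_and_not_dvd c.den_nz p hp.ne_one
    have hp0 : (p : ℚ) ≠ 0 := by exact_mod_cast hp.ne_zero
    have hcop := c.reduced
    have hv : (a : ℤ) - (d : ℤ) ≠ 0 := by
      intro h0
      have had : a = d := by omega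
      have hn1 : ¬ (p ∣ c.num.natAbs ∧ p ∣ c.den) := fun h =>
        Nat.not_coprime_of_dvd_of_dvd hp.one_lt h.1 h.2 hcop
      rcases Nat.eq_zero_or_pos a with h1 | h1
      · rcases hpd with h2 | h2
        · rw [hs', h1, pow_zero, one_mul] at h2; exact hs h2
        · rw [ht', ← had, h1, pow_zero, one_mul] at h2; exact ht h2
      · apply hn1
        constructor
        · rw [hs']; exact (dvd_pow_self p h1.ne').mul_right _
        · rw [ht', ← had]; exact (dvd_pow_self p h1.ne').mul_right _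
    have hsgn : IsUnit (c.num.sign) := by
      rw [Int.isUnit_iff]
      rcases lt_or_gt_of_ne hnum with h | h
      · right; exact Int.sign_eq_neg_one_of_neg h
      · left; exact Int.sign_eq_one_of_pos h
    have hs0 : s ≠ 0 := by rintro rfl; exact hs (dvd_zero p)
    have ht0 : t ≠ 0 := by rintro rfl; exact ht (dvd_zero p)
    have hsc : IsCoprime (c.num.sign * (s : ℤ)) (p : ℤ) :=
      (isCoprime_mul_unit_left_left hsgn _ _).2 (cop_of hp hs)
    have hrel : c * ((t : ℤ) : ℚ) = (p : ℚ) ^ ((a : ℤ) - (d : ℤ)) * ((c.num.sign * (s : ℤ) : ℤ) : ℚ) := by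
      have h1 : (c.num : ℚ) = (c.num.sign : ℚ) * ((p : ℚ) ^ a * s) := by
        have := Int.sign_mul_natAbs c.num
        rw [hs'] at this
        exact_mod_cast this.symm
      have h2 : (c.den : ℚ) = (p : ℚ) ^ d * t := by exact_mod_cast ht'
      have h3 := Rat.mul_den_eq_num c
      have ht0' : (t : ℚ) ≠ 0 := by exact_mod_cast ht0
      rw [h1, h2] at h3
      rw [zpow_sub₀ hp0, zpow_natCast, zpow_natCast]
      push_cast
      have hpd' : (p : ℚ) ^ d ≠ 0 := pow_ne_zero _ hp0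
      rw [div_mul_eq_mul_div, eq_div_iff hpd']
      linear_combination h3
    exact all_of_eq hp g A _ hv (scal_L hp g c hc A _ _ _ hsc (cop_of hp ht)
      (mul_ne_zero hsgn.ne_zero (by exact_mod_cast hs0)) (by exact_mod_cast ht0) hrel) (he p)
  have hA1 : ∀ x ∈ A.1, c • x ∈ A.1 := by
    intro x hx
    have h1 := div_nat (A := A.1) c.den c.den_nz
      (fun p hp hd y hy => div_of_all hp (hdiv p hp (Or.inr hd)) hy) _ (intmem hx c.num)
    rw [smul_smul] at h1
    convert h1 using 2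
    have := Rat.mul_den_eq_num c
    have hd : (c.den : ℚ) ≠ 0 := by exact_mod_cast c.den_nz
    rw [← this]
    field_simp
  have hA2 : ∀ x ∈ A.1, c⁻¹ • x ∈ A.1 := by
    intro x hx
    have h1 := div_nat (A := A.1) c.num.natAbs (Int.natAbs_ne_zero.2 hnum)
      (fun p hp hd y hy => div_of_all hp (hdiv p hp (Or.inl hd)) hy) _
      (intmem hx (c.num.sign * c.den))
    rw [smul_smul] at h1
    convert h1 using 2
    have h3 := Rat.mul_den_eq_num c
    have h4 : ((c.num.natAbs : ℕ) : ℚ) * (c.num.sign : ℚ) = (c.num : ℚ) := by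
      have := congrArg (Int.cast : ℤ → ℚ) (Int.sign_mul_natAbs c.num)
      rw [Int.cast_mul, Int.cast_natCast] at this
      rw [mul_comm]
      exact this
    have hn0 : (c.num : ℚ) ≠ 0 := by exact_mod_cast hnum
    have ha0 : ((c.num.natAbs : ℕ) : ℚ) ≠ 0 := by
      exact_mod_cast Int.natAbs_ne_zero.2 hnum
    have hsg : (c.num.sign : ℚ) * (c.num.sign : ℚ) = 1 := by
      rcases lt_or_gt_of_ne hnum with h | h
      · rw [Int.sign_eq_neg_one_of_neg h]; norm_num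
      · rw [Int.sign_eq_one_of_pos h]; norm_num
    rw [inv_eq_iff_eq_inv, mul_inv, inv_inv]
    push_cast
    have hd : (c.den : ℚ) ≠ 0 := by exact_mod_cast c.den_nz
    have hs0 : (c.num.sign : ℚ) ≠ 0 := by
      intro h0; rw [h0] at hsg; norm_num at hsg
    rw [mul_inv]
    have h5 : (c.num.sign : ℚ)⁻¹ = (c.num.sign : ℚ) := by
      rw [inv_eq_iff_eq_inv]
      exact eq_inv_of_mul_eq_one_left hsg
    rw [h5]
    have h6 : c = (c.num : ℚ) * (c.den : ℚ)⁻¹ := by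
      rw [← h3]; field_simp
    calc c = (c.num : ℚ) * (c.den : ℚ)⁻¹ := h6
      _ = ((c.num.natAbs : ℕ) : ℚ) * (c.num.sign : ℚ) * (c.den : ℚ)⁻¹ := by rw [h4]
      _ = _ := by ring
  have hinv : ∀ w : V n, g⁻¹ w = c⁻¹ • w := by
    intro w
    have h1 : g (c⁻¹ • w) = w := by rw [hc, smul_smul, mul_inv_cancel₀ hc0, one_smul]
    calc g⁻¹ w = g⁻¹ (g (c⁻¹ • w)) := by rw [h1]
      _ = c⁻¹ • w := LinearEquiv.symm_apply_apply g _
  apply Subtype.ext
  ext v
  rw [mem_smul, hinv]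
  constructor
  · intro h
    have := hA1 _ h
    rwa [smul_smul, mul_inv_cancel₀ hc0, one_smul] at this
  · exact hA2 v

end Pool.Agent.H64R3.EFE
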