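-- proved by helper125 (project H418-EF)
import Pool.Agent.H418R3.EF.Stmts

/-! Project H418-EF, TaskGlue. -/

set_option autoImplicit false

namespace Pool.Agent.H418R3.EF.Glue125

open Pool.Agent.H418R3.EF

theorem countable_coprodI {ι : Type} [Countable ι] (M : ι → Type) [∀ i, Monoid (M i)]
    [∀ i, Countable (M i)] : Countable (Monoid.CoprodI M) := by
  haveI : Countable (FreeMonoid (Σ i, M i)) := inferInstanceAs (Countable (List (Σ i, M i)))
  exact Function.Surjective.countable (f := Con.mk' (conGen (Monoid.CoprodI.Rel M)))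
    Con.mk'_surjective

theorem t : TaskGlue := by
  intro G _ _ X _ _ hact ι _ P hP hC hcov
  classical
  obtain ⟨eI, heI⟩ := Countable.exists_injective_nat ι
  obtain ⟨eG, heG⟩ := Countable.exists_injective_nat G
  have hC' : ∀ i, ∃ (Γ : Type) (_ : Group Γ) (_ : Countable Γ) (β : X → X → Γ) (ℓ : X → ℕ),
    (∀ x ∈ P i, ∀ y ∈ P i, ∀ z ∈ P i, (∃ g : G, g • x = y) → (∃ g : G, g • y = z) →
      β z x = β z y * β y x) ∧
    (∀ x ∈ P i, ∀ y ∈ P i, (∃ g : G, g • x = y) → β y x = 1 → ℓ x = ℓ y → x = y) ∧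
    (∀ (g : G) (γ : Γ), MeasurableSet {x | x ∈ P i ∧ g • x ∈ P i ∧ β (g • x) x = γ}) ∧
    (∀ k : ℕ, MeasurableSet {x | x ∈ P i ∧ ℓ x = k}) := hC
  choose Γ grp cnt β ℓ h1 h2 h3 h4 using hC'
  letI : ∀ i, Group (Γ i) := grp
  haveI : ∀ i, Countable (Γ i) := cnt
  let D : ι → G → Set X := fun i a => {x | a • x ∈ P i ∧ (∀ j, eI j < eI i → ∀ h : G, h • x ∉ P j) ∧
    (∀ h : G, eG h < eG a → h • x ∉ P i)}
  have hDm : ∀ i a, MeasurableSet (D i a) := by
    intro i a
    have e : D i a = ((fun x => a • x) ⁻¹' P i) ∩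
        ((⋂ j : {j // eI j < eI i}, ⋂ h : G, ((fun x => h • x) ⁻¹' P j.1)ᶜ) ∩
          (⋂ h : {h : G // eG h < eG a}, ((fun x => h.1 • x) ⁻¹' P i)ᶜ)) := by
      ext x
      simp only [D, Set.mem_ofPred_eq, Set.mem_inter_iff, Set.mem_preimage, Set.mem_iInter,
        Set.mem_compl_iff, Subtype.forall]
    rw [e]
    refine (hact a (hP i)).inter (MeasurableSet.inter ?_ ?_)
    · exact MeasurableSet.iInter fun j => MeasurableSet.iInter fun h => (hact h (hP j.1)).compl
    · exact MeasurableSet.iInter fun h => (hact h.1 (hP i)).compl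
  have hex : ∀ x, ∃ i a, x ∈ D i a := by
    intro x
    have hne : ∃ n, ∃ i, eI i = n ∧ ∃ g : G, g • x ∈ P i := by
      obtain ⟨i, g, hg⟩ := hcov x
      exact ⟨_, i, rfl, g, hg⟩
    obtain ⟨i, hi, g, hg⟩ := Nat.find_spec hne
    have hne2 : ∃ n, ∃ a, eG a = n ∧ a • x ∈ P i := ⟨_, g, rfl, hg⟩
    obtain ⟨a, ha, hax⟩ := Nat.find_spec hne2
    refine ⟨i, a, hax, ?_, ?_⟩
    · intro j hj h hh
      rw [hi] at hj
      exact Nat.find_min hne hj ⟨j, rfl, h, hh⟩
    · intro h hh hx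
      rw [ha] at hh
      exact Nat.find_min hne2 hh ⟨h, rfl, hx⟩
  have hinv : ∀ x (g : G) i a j b, x ∈ D i a → g • x ∈ D j b → i = j := by
    rintro x g i a j b ⟨hx1, hx2, -⟩ ⟨hy1, hy2, -⟩
    apply heI
    rcases lt_trichotomy (eI i) (eI j) with h | h | h
    · exfalso
      apply hy2 i h (a * g⁻¹)
      rw [mul_smul, inv_smul_smul]
      exact hx1
    · exact h
    · exfalso
      apply hx2 j h (b * g)
      rw [mul_smul]
      exact hy1
  have hunique : ∀ x i a b, x ∈ D i a → x ∈ D i b → a = b := by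
    rintro x i a b ⟨hx1, -, hx3⟩ ⟨hy1, -, hy3⟩
    apply heG
    rcases lt_trichotomy (eG a) (eG b) with h | h | h
    · exact absurd hx1 (hy3 a h)
    · exact h
    · exact absurd hy1 (hx3 b h)
  choose I A hIA using hex
  have hDIA : ∀ x i a, x ∈ D i a → I x = i ∧ A x = a := by
    intro x i a hx
    have h := hinv x 1 (I x) (A x) i a (hIA x) (by rw [one_smul]; exact hx)
    refine ⟨h, ?_⟩
    have h' := hIA x
    rw [h] at h'
    exact hunique x i _ _ h' hx
  have hIinv : ∀ x (g : G), I (g • x) = I x := fun x g =>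
    (hinv x g _ _ _ _ (hIA x) (hIA (g • x))).symm
  let r : X → X := fun x => A x • x
  have hr : ∀ x, r x ∈ P (I x) := fun x => (hIA x).1
  let B : ι → X → X → Monoid.CoprodI Γ := fun i a b => Monoid.CoprodI.of (β i a b)
  haveI := countable_coprodI Γ
  have horb : ∀ x y, (∃ g : G, g • x = y) → I y = I x ∧ ∃ g : G, g • r x = r y := by
    rintro x y ⟨g, rfl⟩
    refine ⟨hIinv x g, A (g • x) * g * (A x)⁻¹, ?_⟩
    simp only [r]
    rw [mul_smul, mul_smul, inv_smul_smul]
  refine ⟨Monoid.CoprodI Γ, inferInstance, inferInstance, fun y x => B (I x) (r y) (r x),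
    fun x => Nat.pair (eG (A x)) (ℓ (I x) (r x)), ?_, ?_, ?_, ?_⟩
  · intro x _ y _ z _ hxy hyz
    obtain ⟨hI1, hg1⟩ := horb x y hxy
    obtain ⟨hI2, hg2⟩ := horb y z hyz
    show B (I x) (r z) (r x) = B (I y) (r z) (r y) * B (I x) (r y) (r x)
    rw [hI1]
    have hy : r y ∈ P (I x) := by rw [← hI1]; exact hr y
    have hz : r z ∈ P (I x) := by rw [← hI1, ← hI2]; exact hr z
    have := h1 (I x) (r x) (hr x) (r y) hy (r z) hz hg1 hg2
    simp only [B]
    rw [this, map_mul]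
  · intro x _ y _ hxy hb hl
    obtain ⟨hI1, hg1⟩ := horb x y hxy
    have hy : r y ∈ P (I x) := by rw [← hI1]; exact hr y
    have hb' : β (I x) (r y) (r x) = 1 := by
      apply Monoid.CoprodI.of_injective (M := Γ) (I x)
      rw [map_one]
      exact hb
    have hl' : Nat.pair (eG (A x)) (ℓ (I x) (r x)) = Nat.pair (eG (A y)) (ℓ (I y) (r y)) := hl
    rw [Nat.pair_eq_pair, hI1] at hl'
    have h5 := h2 (I x) (r x) (hr x) (r y) hy hg1 hb' hl'.2
    have h6 : A x = A y := heG hl'.1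
    simp only [r] at h5
    rw [h6] at h5
    exact MulAction.injective _ h5
  · intro g γ
    have e : {x : X | x ∈ (Set.univ : Set X) ∧ g • x ∈ (Set.univ : Set X) ∧
        B (I x) (r (g • x)) (r x) = γ} =
        ⋃ i : ι, ⋃ a : G, ⋃ b : G, ⋃ δ : {δ : Γ i // Monoid.CoprodI.of δ = γ},
          (D i a ∩ (fun x => g • x) ⁻¹' D i b) ∩
          ((fun x => a • x) ⁻¹' {u | u ∈ P i ∧ (b * g * a⁻¹) • u ∈ P i ∧
            β i ((b * g * a⁻¹) • u) u = δ.1}) := by
      ext x
      simp only [Set.mem_ofPred_eq, Set.mem_univ, true_and, Set.mem_iUnion, Set.mem_inter_iff,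
        Set.mem_preimage]
      constructor
      · intro hx
        refine ⟨I x, A x, A (g • x), ⟨β (I x) (r (g • x)) (r x), hx⟩, ⟨hIA x, ?_⟩, hr x, ?_, ?_⟩
        · have := hIA (g • x)
          rw [hIinv x g] at this
          exact this
        · rw [mul_smul, mul_smul, inv_smul_smul, ← hIinv x g]
          exact hr (g • x)
        · rw [mul_smul, mul_smul, inv_smul_smul]
      · rintro ⟨i, a, b, ⟨δ, hδ⟩, ⟨hx1, hx2⟩, hx3, hx4, hx5⟩
        obtain ⟨hi, ha⟩ := hDIA x i a hx1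
        obtain ⟨hi', hb⟩ := hDIA (g • x) i b hx2
        simp only at hx5
        rw [mul_smul, mul_smul, inv_smul_smul] at hx5
        simp only [B, r]
        rw [hi, ha, hb, hx5]
        exact hδ
    rw [e]
    refine MeasurableSet.iUnion fun i => MeasurableSet.iUnion fun a => MeasurableSet.iUnion fun b =>
      MeasurableSet.iUnion fun δ => ?_
    exact ((hDm i a).inter (hact g (hDm i b))).inter (hact a (h3 i (b * g * a⁻¹) δ.1))
  · intro k
    have e : {x : X | x ∈ (Set.univ : Set X) ∧ Nat.pair (eG (A x)) (ℓ (I x) (r x)) = k} =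
        ⋃ i : ι, ⋃ a : G, ⋃ m : {m : ℕ // Nat.pair (eG a) m = k},
          D i a ∩ ((fun x => a • x) ⁻¹' {u | u ∈ P i ∧ ℓ i u = m.1}) := by
      ext x
      simp only [Set.mem_ofPred_eq, Set.mem_univ, true_and, Set.mem_iUnion, Set.mem_inter_iff,
        Set.mem_preimage]
      constructor
      · intro hx
        exact ⟨I x, A x, ⟨ℓ (I x) (r x), hx⟩, hIA x, hr x, rfl⟩
      · rintro ⟨i, a, ⟨m, hm⟩, hx1, hx2, hx3⟩
        obtain ⟨hi, ha⟩ := hDIA x i a hx1
        simp only at hx3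
        simp only [r]
        rw [hi, ha, hx3]
        exact hm
    rw [e]
    refine MeasurableSet.iUnion fun i => MeasurableSet.iUnion fun a => MeasurableSet.iUnion fun m => ?_
    exact (hDm i a).inter (hact a (h4 i m.1))

end Pool.Agent.H418R3.EF.Glue125
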