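-- proved by helper861 (project H418-EF)
import Pool.Agent.H418R3.EF.Stmts

set_option autoImplicit false

/-! Task Iso of the project H418-EF (helper861). -/

namespace Pool.Agent.H861R3.EFIso

open Pool.Agent.H418R3.EF
open scoped Pointwise

theorem ext {n : ℕ} (A : AddSubgroup (V n)) (f : A →+ V n) :
    ∃ F : V n →ₗ[ℚ] V n, ∀ a : A, F (a : V n) = f a := by
  obtain ⟨h, hh⟩ := (Module.Baer.of_divisible (V n)).extension_property_addMonoidHom A.subtype
    A.subtype_injective f
  refine ⟨h.toRatLinearMap, fun a => ?_⟩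
  exact DFunLike.congr_fun hh a

theorem t : TaskIso := by
  intro n A B
  constructor
  · rintro ⟨e⟩
    obtain ⟨F, hF⟩ := ext A.1 (B.1.subtype.comp e.toAddMonoidHom)
    obtain ⟨F', hF'⟩ := ext B.1 (A.1.subtype.comp e.symm.toAddMonoidHom)
    have hF1 : ∀ a : A.1, F (a : V n) = (e a : V n) := hF
    have hF2 : ∀ b : B.1, F' (b : V n) = (e.symm b : V n) := hF'
    have h1 : F.comp F' = LinearMap.id := by
      refine LinearMap.ext_on B.2 ?_
      intro b hb
      rw [LinearMap.comp_apply, LinearMap.id_apply, hF2 ⟨b, hb⟩, hF1, e.apply_symm_apply]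
    have h2 : F'.comp F = LinearMap.id := by
      refine LinearMap.ext_on A.2 ?_
      intro a ha
      rw [LinearMap.comp_apply, LinearMap.id_apply, hF1 ⟨a, ha⟩, hF2, e.symm_apply_apply]
    refine ⟨LinearEquiv.ofLinearMap F F' h1 h2, ?_⟩
    apply Subtype.ext
    ext v
    rw [mem_smul]
    have h3 : ((LinearEquiv.ofLinearMap F F' h1 h2 : GQ n)⁻¹ : GQ n) v = F' v := rfl
    rw [h3]
    constructor
    · intro hv
      have h4 := hF1 ⟨F' v, hv⟩
      have h5 : F (F' v) = v := by
        have := LinearMap.congr_fun h1 v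
        exact this
      rw [h5] at h4
      rw [h4]
      exact (e ⟨F' v, hv⟩).2
    · intro hv
      rw [hF2 ⟨v, hv⟩]
      exact (e.symm ⟨v, hv⟩).2
  · rintro ⟨g, rfl⟩
    have h1 : ∀ a : A.1, (g (a : V n)) ∈ (g • A).1 := by
      intro a
      rw [mem_smul]
      have h2 : ((g⁻¹ : GQ n)) (g (a : V n)) = (a : V n) := g.symm_apply_apply _
      rw [h2]
      exact a.2
    refine ⟨AddEquiv.ofBijective
      (((g : V n ≃ₗ[ℚ] V n).toLinearMap.toAddMonoidHom.comp A.1.subtype).codRestrict (g • A).1 h1)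
      ⟨?_, ?_⟩⟩
    · intro a b hab
      have h3 : g (a : V n) = g (b : V n) := congrArg Subtype.val hab
      exact Subtype.ext (g.injective h3)
    · rintro ⟨b, hb⟩
      have hb' := hb
      rw [mem_smul] at hb'
      refine ⟨⟨_, hb'⟩, ?_⟩
      apply Subtype.ext
      exact g.apply_symm_apply b

end Pool.Agent.H861R3.EFIso
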