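-- proved by helper467 (project H418-EF)
import Pool.Agent.H418R3.EF.Stmts

set_option autoImplicit false

namespace Pool.Agent.H418R3.EF.TaskSHelper467

open Pool.Agent.H418R3.EF

/-- the normal subgroup of scalars -/
def scal (n : ℕ) : Subgroup (GQ n) where
  carrier := {g | IsScal g}
  one_mem' := ⟨1, fun v => by simp⟩
  mul_mem' := by
    rintro g h ⟨c, hc⟩ ⟨d, hd⟩
    refine ⟨c * d, fun v => ?_⟩
    rw [LinearEquiv.mul_apply, hd, map_smul, hc, smul_smul, mul_comm]
  inv_mem' := by
    rintro g ⟨c, hc⟩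
    have key : ∀ v, g (g⁻¹ v) = v := fun v => by
      rw [← LinearEquiv.mul_apply, mul_inv_cancel]
      rfl
    by_cases h0 : c = 0
    · refine ⟨1, fun v => ?_⟩
      have hz : ∀ w : V n, w = 0 := fun w => by
        rw [← key w, hc, h0, zero_smul]
      rw [hz (g⁻¹ v), hz ((1 : ℚ) • v)]
    · refine ⟨c⁻¹, fun v => ?_⟩
      have h1 := key v
      rw [hc] at h1
      rw [← h1, smul_smul, inv_mul_cancel₀ h0, one_smul]
      congr 1

instance (n : ℕ) : (scal n).Normal where
  conj_mem := by
    rintro g ⟨c, hc⟩ h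
    refine ⟨c, fun v => ?_⟩
    rw [LinearEquiv.mul_apply, LinearEquiv.mul_apply, hc, map_smul, ← LinearEquiv.mul_apply,
      mul_inv_cancel]
    rfl

theorem mk_eq {n : ℕ} {A B : Sn n} (hA : A ∈ PS n) (g h : GQ n) (hg : g • A = B)
    (hh : h • A = B) : (QuotientGroup.mk g : GQ n ⧸ scal n) = QuotientGroup.mk h := by
  rw [QuotientGroup.eq]
  show IsScal (g⁻¹ * h)
  apply hA
  rw [mul_smul, hh, ← hg, inv_smul_smul]

open Classical in
/-- the difference -/
noncomputable def D {X : Type} (e : ℕ → X → ℤ) (y x : X) : ℕ →₀ ℤ :=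
  if h : (Function.support (fun p => e p y - e p x)).Finite then
    Finsupp.ofSupportFinite (fun p => e p y - e p x) h else 0

theorem D_apply {X : Type} (e : ℕ → X → ℤ) (y x : X) (h : {p | e p y ≠ e p x}.Finite) (p : ℕ) :
    D e y x p = e p y - e p x := by
  have h' : (Function.support (fun p => e p y - e p x)).Finite := by
    convert h using 1
    ext p
    simp [sub_eq_zero]
  unfold D
  rw [dif_pos h']
  rfl

open Classical in
/-- the cocycle -/
noncomputable def cls {n : ℕ} (y x : Sn n) : GQ n ⧸ scal n :=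
  if h : ∃ g : GQ n, g • x = y then QuotientGroup.mk h.choose else 1

theorem cls_eq {n : ℕ} {y x : Sn n} (hx : x ∈ PS n) (g : GQ n) (hg : g • x = y) :
    cls y x = QuotientGroup.mk g := by
  have h : ∃ g : GQ n, g • x = y := ⟨g, hg⟩
  unfold cls
  rw [dif_pos h]
  exact mk_eq hx _ _ h.choose_spec hg

theorem t : TaskS := by
  intro hE hStd hMeas n hn
  obtain ⟨e, he1, he2, he3⟩ := hE n hn
  obtain ⟨hc, _, hm, _, _⟩ := hStd n
  have hPS := hMeas.1 n
  refine ⟨(GQ n ⧸ scal n) × Multiplicative (ℕ →₀ ℤ), inferInstance, ?_,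
    fun y x => (cls y x, Multiplicative.ofAdd (D e y x)), fun _ => 0, ?_, ?_, ?_, ?_⟩
  · have : Countable (GQ n ⧸ scal n) := Quotient.countable
    have : Countable (Multiplicative (ℕ →₀ ℤ)) :=
      (Multiplicative.toAdd (α := ℕ →₀ ℤ)).injective.countable
    infer_instance
  · rintro x hx y hy z hz ⟨g, hg⟩ ⟨h, hh⟩
    have hgh : (h * g) • x = z := by rw [mul_smul, hg, hh]
    refine Prod.ext ?_ ?_
    · show cls z x = cls z y * cls y x
      rw [cls_eq hx (h * g) hgh, cls_eq hx g hg, cls_eq hy h hh]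
      rfl
    · show Multiplicative.ofAdd (D e z x) =
        Multiplicative.ofAdd (D e z y) * Multiplicative.ofAdd (D e y x)
      rw [← ofAdd_add]
      congr 1
      ext p
      have f1 := he2 (h * g) x
      have f2 := he2 g x
      have f3 := he2 h y
      rw [hgh] at f1
      rw [hg] at f2
      rw [hh] at f3
      rw [Finsupp.add_apply, D_apply e z x f1, D_apply e y x f2, D_apply e z y f3]
      ring
  · rintro x hx y hy ⟨g, hg⟩ h1 _
    have h2 : cls y x = 1 := congrArg Prod.fst h1
    have h3 : Multiplicative.ofAdd (D e y x) = 1 := congrArg Prod.snd h1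
    have h3' : D e y x = 0 := h3
    rw [cls_eq hx g hg] at h2
    have h4 : IsScal g := (QuotientGroup.eq_one_iff (N := scal n) g).1 h2
    have f2 := he2 g x
    rw [hg] at f2
    have h5 : ∀ p, e p (g • x) = e p x := by
      intro p
      have := D_apply e y x f2 p
      rw [h3'] at this
      rw [hg]
      have h0 : (0 : ℕ →₀ ℤ) p = 0 := rfl
      rw [h0] at this
      linarith
    have := he3 g x h4 h5
    rw [← hg, this]
  · rintro g ⟨q, d⟩
    have hset : {x | x ∈ PS n ∧ g • x ∈ PS n ∧
        ((cls (g • x) x, Multiplicative.ofAdd (D e (g • x) x)) :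
          (GQ n ⧸ scal n) × Multiplicative (ℕ →₀ ℤ)) = (q, d)} =
        (PS n ∩ (fun x => g • x) ⁻¹' (PS n)) ∩ ({x | (QuotientGroup.mk g : GQ n ⧸ scal n) = q} ∩
          ⋂ p : ℕ, ⋃ k : ℤ, {x | e p x = k} ∩
            (fun x => g • x) ⁻¹' {x | e p x = k + (Multiplicative.toAdd d) p}) := by
      ext x
      simp only [Set.mem_ofPred_eq, Set.mem_inter_iff, Set.mem_preimage, Set.mem_iInter,
        Set.mem_iUnion, Prod.mk.injEq]
      constructor
      · rintro ⟨hx, hgx, h1, h2⟩
        refine ⟨⟨hx, hgx⟩, ?_, ?_⟩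
        · rw [← cls_eq hx g rfl]
          exact h1
        · intro p
          refine ⟨e p x, rfl, ?_⟩
          rw [← h2, toAdd_ofAdd, D_apply e (g • x) x (he2 g x)]
          ring
      · rintro ⟨⟨hx, hgx⟩, h1, h2⟩
        refine ⟨hx, hgx, ?_, ?_⟩
        · rw [cls_eq hx g rfl]
          exact h1
        · apply Multiplicative.toAdd.injective
          rw [toAdd_ofAdd]
          ext p
          obtain ⟨k, hk1, hk2⟩ := h2 p
          rw [D_apply e (g • x) x (he2 g x), hk2, hk1]
          ring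
    rw [hset]
    refine (hPS.inter (hm g hPS)).inter (MeasurableSet.inter (MeasurableSet.const _) ?_)
    refine MeasurableSet.iInter fun p => MeasurableSet.iUnion fun k => ?_
    exact (he1 p k).inter (hm g (he1 p _))
  · intro k
    have : {x | x ∈ PS n ∧ (0 : ℕ) = k} = PS n ∩ {x | (0 : ℕ) = k} := rfl
    rw [this]
    exact hPS.inter (MeasurableSet.const _)

end Pool.Agent.H418R3.EF.TaskSHelper467
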