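-- proved by helper861 (project H418-EF)
import Pool.Agent.H418R3.EF.Stmts

set_option autoImplicit false

/-! Task Std of the project H418-EF (helper861). -/

namespace Pool.Agent.H861R3.EFStd

open Pool.Agent.H418R3.EF
open scoped Pointwise

theorem standardBorel_of_equiv {α β : Type*} [MeasurableSpace α] [MeasurableSpace β]
    [StandardBorelSpace β] (e : α ≃ᵐ β) : StandardBorelSpace α := by
  let _ := upgradeStandardBorel β
  let τ : TopologicalSpace α := TopologicalSpace.induced e inferInstance
  have hi : Topology.IsInducing e := ⟨rfl⟩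
  let h : α ≃ₜ β := e.toEquiv.toHomeomorphOfIsInducing hi
  have : PolishSpace α := h.isClosedEmbedding.polishSpace
  have : BorelSpace α := ⟨by
    have h1 : @borel α τ = (borel β).comap e := borel_comap
    rw [h1, ← BorelSpace.measurable_eq (α := β)]
    exact e.measurableEmbedding.comap_eq.symm⟩
  infer_instance

/-- the defining map -/
def phi (n : ℕ) (A : Sn n) : V n → Prop := fun v => v ∈ A.1

theorem meas_mem (n : ℕ) (v : V n) : Measurable fun A : Sn n => v ∈ A.1 :=
  (measurable_pi_apply v).comp (comap_measurable (phi n))

theorem phi_inj (n : ℕ) : Function.Injective (phi n) := by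
  intro A B h
  apply Subtype.ext
  ext v
  have := congrFun h v
  exact iff_of_eq this

theorem span_iff (n : ℕ) (S : Set (V n)) : Submodule.span ℚ S = ⊤ ↔
    ∀ v : V n, ∃ T : Finset (V n), v ∈ Submodule.span ℚ (T : Set (V n)) ∧ ∀ t, t ∈ T → t ∈ S := by
  constructor
  · intro h v
    have hv : v ∈ Submodule.span ℚ S := by rw [h]; trivial
    obtain ⟨T, hT, hvT⟩ := Submodule.mem_span_finite_of_mem_span hv
    exact ⟨T, hvT, fun t ht => hT ht⟩
  · intro h
    rw [Submodule.eq_top_iff']
    intro v
    obtain ⟨T, hvT, hT⟩ := h v
    exact Submodule.span_mono (fun t ht => hT t ht) hvT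

theorem range_phi (n : ℕ) : Set.range (phi n) = {s : V n → Prop | s 0 ∧
    (∀ a b, s a → s b → s (a + b)) ∧ (∀ a, s a → s (-a)) ∧
    ∀ v : V n, ∃ T : Finset (V n), v ∈ Submodule.span ℚ (T : Set (V n)) ∧ ∀ t, t ∈ T → s t} := by
  ext s
  constructor
  · rintro ⟨A, rfl⟩
    exact ⟨A.1.zero_mem, fun a b => A.1.add_mem, fun a => A.1.neg_mem, (span_iff n _).1 A.2⟩
  · rintro ⟨h1, h2, h3, h4⟩
    let A : AddSubgroup (V n) :=
      { carrier := {v | s v}
        zero_mem' := h1
        add_mem' := fun {a b} ha hb => h2 a b ha hb
        neg_mem' := fun {a} ha => h3 a ha }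
    exact ⟨⟨A, (span_iff n _).2 h4⟩, rfl⟩

theorem meas_range (n : ℕ) : MeasurableSet (Set.range (phi n)) := by
  rw [range_phi, measurableSet_setOfPred]
  have hm : ∀ v : V n, Measurable fun s : V n → Prop => s v := fun v => measurable_pi_apply v
  refine (hm 0).and (Measurable.and ?_ (Measurable.and ?_ ?_))
  · exact Measurable.forall fun a => Measurable.forall fun b =>
      (hm a).imp ((hm b).imp (hm (a + b)))
  · exact Measurable.forall fun a => (hm a).imp (hm (-a))
  · exact Measurable.forall fun v => Measurable.exists fun T =>
      (measurable_const (a := (v ∈ Submodule.span ℚ (T : Set (V n))))).and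
        (Measurable.forall fun t => (measurable_const (a := (t ∈ T))).imp (hm t))

theorem emb (n : ℕ) : MeasurableEmbedding (phi n) where
  injective := phi_inj n
  measurable := comap_measurable (phi n)
  measurableSet_image' := by
    rintro s ⟨t, ht, rfl⟩
    show MeasurableSet (phi n '' (phi n ⁻¹' t))
    rw [Set.image_preimage_eq_inter_range]
    exact ht.inter (meas_range n)

theorem standard (n : ℕ) : StandardBorelSpace (Sn n) := by
  have := (meas_range n).standardBorel
  exact standardBorel_of_equiv (emb n).equivRange

theorem countable_GQ (n : ℕ) : Countable (GQ n) := by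
  refine Function.Injective.countable (f := fun g : GQ n => fun i : Fin n => g (Pi.single i 1)) ?_
  intro g h hgh
  apply LinearEquiv.toLinearMap_injective
  refine (Pi.basisFun ℚ (Fin n)).ext fun i => ?_
  rw [Pi.basisFun_apply]
  exact congrFun hgh i

theorem t : TaskStd := by
  intro n
  refine ⟨countable_GQ n, standard n, ?_, ?_, ?_⟩
  · intro g
    have h : Measurable (phi n ∘ fun A : Sn n => g • A) := by
      rw [measurable_pi_iff]
      intro v
      have : (fun A : Sn n => (phi n ∘ fun A : Sn n => g • A) A v) =
          fun A : Sn n => g⁻¹ v ∈ A.1 := by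
        funext A
        exact propext (mem_smul g A v)
      rw [this]
      exact meas_mem n _
    exact measurable_comap_iff.2 h
  · intro g
    have : {A : Sn n | g • A = A} = {A : Sn n | ∀ v : V n, (g⁻¹ v ∈ A.1 ↔ v ∈ A.1)} := by
      ext A
      constructor
      · intro h v
        have h' : g • A = A := h
        rw [← mem_smul g A v, h']
      · intro h
        show g • A = A
        apply Subtype.ext
        ext v
        rw [mem_smul]
        exact h v
    rw [this, measurableSet_setOfPred]
    exact Measurable.forall fun v => (meas_mem n _).iff (meas_mem n v)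
  · intro v
    exact measurableSet_setOfPred.2 (meas_mem n v)

end Pool.Agent.H861R3.EFStd
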